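import Pool.Agent.Helper56.WS.Fermat

/-!
# WS-25, the blocks of `α x³ + β y³ + ..` and of `A x³ + C x y² + ..`
-/

open MvPolynomial Finset

namespace Pool.Agent.Helper9.WS

section cub56

variable {k : Type} [Field k]

lemma choose_pred56 {p : ℕ} [Fact p.Prime] [CharP k p] {P : ℕ} (hP : p = P + 1) (m : ℕ) (hm : m ≤ P) :
    ((P.choose m : ℕ) : k) = (-1) ^ m := by
  induction m with
  | zero => simp
  | succ m ih =>
    have h1 := ih (by omega)
    have h2 : ((p.choose (m + 1) : ℕ) : k) = 0 := by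
      rw [CharP.cast_eq_zero_iff k p]
      exact Nat.Prime.dvd_choose_self (Fact.out : p.Prime) (by omega) (by omega)
    rw [hP, Nat.choose_succ_succ, Nat.cast_add, h1] at h2
    rw [pow_succ]
    linear_combination h2

lemma TG56 (s₁ s₂ : Fin 2 →₀ ℕ) (α β : k) (N : ℕ) (e : Fin 2 →₀ ℕ) :
    ((monomial s₁ α + monomial s₂ β : MvPolynomial (Fin 2) k) ^ N).coeff e =
      ∑ m ∈ range (N + 1), if m • s₁ + (N - m) • s₂ = e then α ^ m * β ^ (N - m) * (N.choose m : k) else 0 := by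
  classical
  rw [add_pow, coeff_sum]
  refine Finset.sum_congr rfl fun m _ => ?_
  rw [monomial_pow, monomial_pow, monomial_mul]
  have h1 : (monomial (m • s₁ + (N - m) • s₂)) (α ^ m * β ^ (N - m)) * ((N.choose m : ℕ) : MvPolynomial (Fin 2) k) =
      monomial (m • s₁ + (N - m) • s₂) (α ^ m * β ^ (N - m) * (N.choose m : k)) := by
    rw [← map_natCast (C : k →+* MvPolynomial (Fin 2) k) (N.choose m), mul_comm, C_mul_monomial, mul_comm]
  rw [h1, coeff_monomial]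

/-- polynomials with diagonal blocks -/
theorem blocks56 {p : ℕ} [Fact p.Prime] {s P Pl : ℕ} (hP : p = P + 1) (hPl : P = 3 * Pl) (hPl0 : 0 < Pl)
    {f : MvPolynomial (Fin 2) k} (hsupp : ∀ e ∈ f.support, e 0 + e 1 ≤ 3) (d : ℕ → ℕ → k)
    (hcoef : ∀ j u0 u1 v0 v1 : ℕ, j ≤ 3 → 1 ≤ u0 → 1 ≤ u1 → 1 ≤ v0 → 1 ≤ v1 → u0 + u1 = j → v0 + v1 = j →
      (f ^ (Pl * j)).coeff (Finsupp.single 0 ((P + 1) * u0 - v0) + Finsupp.single 1 ((P + 1) * u1 - v1)) =
        if u0 = v0 then d j u0 else 0)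
    (h21 : d 2 1 ≠ 0) (h31 : d 3 1 ≠ 0) (h32 : d 3 2 ≠ 0)
    (hsep : d 3 1 ^ (∑ i ∈ range s, (P + 1) ^ i) ≠ d 3 2 ^ (∑ i ∈ range s, (P + 1) ^ i)) :
    PolyBlocks p s 3 {(1, 1)} f := by
  classical
  have hwt : ∀ u : ℕ × ℕ, polyWt {(1, 1)} u = u.1 + u.2 := by
    intro u
    unfold polyWt
    rw [Finset.sup_singleton, one_mul, one_mul]
  have hmem : ∀ j : ℕ, ∀ u : polyIdx {(1, 1)} 3 j, 1 ≤ u.1.1 ∧ 1 ≤ u.1.2 ∧ u.1.1 + u.1.2 = j := by
    intro j u
    have hu := u.2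
    unfold polyIdx at hu
    rw [Finset.mem_filter, Finset.mem_product, Finset.mem_Icc, Finset.mem_Icc, hwt] at hu
    exact ⟨hu.1.1.1, hu.1.2.1, hu.2⟩
  have hprod : ∀ j ≤ 3, mprod (polyHasse p 3 {(1, 1)} f j) s =
      Matrix.diagonal (fun u : polyIdx {(1, 1)} 3 j => d j u.1.1 ^ ∑ i ∈ range s, (P + 1) ^ i) := by
    intro j hj
    have hdiag : (polyHasse p 3 {(1, 1)} f j) =
        fun i => Matrix.diagonal (fun u : polyIdx {(1, 1)} 3 j => d j u.1.1 ^ p ^ i) := by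
      funext i
      ext u v
      obtain ⟨hu0, hu1, hu2⟩ := hmem j u
      obtain ⟨hv0, hv1, hv2⟩ := hmem j v
      unfold polyHasse
      have hN : (p - 1) * j / 3 = Pl * j := by
        rw [hP, Nat.add_sub_cancel, hPl, mul_assoc, Nat.mul_div_cancel_left _ (by norm_num)]
      rw [hN, hP, hcoef j _ _ _ _ hj hu0 hu1 hv0 hv1 hu2 hv2]
      by_cases huv : u = v
      · rw [if_pos (by rw [huv]), huv, Matrix.diagonal_apply_eq]
      · rw [if_neg, Matrix.diagonal_apply_ne _ huv, zero_pow (pow_ne_zero _ (by omega))]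
        intro h2
        exact huv (Subtype.ext (Prod.ext h2 (by omega)))
    rw [hdiag, mprod_diag56]
    congr 1
    funext u
    rw [Finset.prod_pow_eq_pow_sum, hP]
  have hne : ∀ j ≤ 3, ∀ u : polyIdx {(1, 1)} 3 j, d j u.1.1 ≠ 0 := by
    intro j hj u
    obtain ⟨h1, h2, h3⟩ := hmem j u
    have h4 : (j = 2 ∧ u.1.1 = 1) ∨ (j = 3 ∧ u.1.1 = 1) ∨ (j = 3 ∧ u.1.1 = 2) := by omega
    rcases h4 with ⟨h5, h6⟩ | ⟨h5, h6⟩ | ⟨h5, h6⟩
    · rw [h6, h5]; exact h21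
    · rw [h6, h5]; exact h31
    · rw [h6, h5]; exact h32
  refine ⟨by norm_num, ?_, ⟨(1, 1), by simp, by norm_num⟩, ⟨(1, 1), by simp, by norm_num⟩, ?_, ?_, ?_⟩
  · rw [hP, Nat.add_sub_cancel, hPl]
    exact dvd_mul_right _ _
  · intro e he
    rw [hwt]
    exact hsupp e he
  · intro j hj
    rw [hprod j hj, Matrix.det_diagonal, Finset.prod_ne_zero_iff]
    intro u _
    exact pow_ne_zero _ (hne j hj u)
  · intro j hj
    rw [hprod j hj, Matrix.charpoly_diagonal, Polynomial.separable_prod_X_sub_C_iff]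
    intro u v huv
    obtain ⟨hu0, hu1, hu2⟩ := hmem j u
    obtain ⟨hv0, hv1, hv2⟩ := hmem j v
    by_contra hcon
    have h0 : u.1.1 ≠ v.1.1 := by
      intro h
      exact hcon (Subtype.ext (Prod.ext h (by omega)))
    have h4 : (j = 3 ∧ u.1.1 = 1 ∧ v.1.1 = 2) ∨ (j = 3 ∧ u.1.1 = 2 ∧ v.1.1 = 1) := by omega
    simp only at huv
    rcases h4 with ⟨h5, h6, h7⟩ | ⟨h5, h6, h7⟩
    · rw [h6, h7, h5] at huv
      exact hsep huv
    · rw [h6, h7, h5] at huv
      exact hsep huv.symm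

private lemma three56 {p : ℕ} [Fact p.Prime] (h3 : 3 ∣ p - 1) : ∃ P Pl m, p = P + 1 ∧ P = 3 * Pl ∧ Pl = 2 * m ∧ 0 < m := by
  have hp := (Fact.out : p.Prime)
  have h1 := hp.one_lt
  obtain ⟨Pl, hPl⟩ := h3
  have h2 : p ≠ 2 := by
    intro h
    rw [h] at hPl
    omega
  have h4 : p % 2 = 1 := hp.eq_two_or_odd.resolve_left h2
  refine ⟨3 * Pl, Pl, Pl / 2, by omega, rfl, by omega, by omega⟩

/-- the blocks of `α x³ + β y³ + ..` -/
theorem cub_B {p : ℕ} [Fact p.Prime] {k : Type} [Field k] [Fintype k] {s : ℕ} (hk : Fintype.card k = p ^ s) (h3 : 3 ∣ p - 1)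
    {f : MvPolynomial (Fin 2) k} (hsupp : ∀ e ∈ f.support, e 0 + e 1 ≤ 3) {a b : k} (ha : a ≠ 0) (hb : b ≠ 0)
    (c30 : f.coeff (Finsupp.single 0 3) = a) (c21 : f.coeff (Finsupp.single 0 2 + Finsupp.single 1 1) = 0)
    (c12 : f.coeff (Finsupp.single 0 1 + Finsupp.single 1 2) = 0) (c03 : f.coeff (Finsupp.single 1 3) = b)
    (hab : ∀ x : k, a ≠ x ^ 3 * b) : PolyBlocks p s 3 {(1, 1)} f := by
  classical
  have hch : CharP k p := charP_of_card_eq_prime_pow hk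
  obtain ⟨P, Pl, m, hP, hPl, hm, hm0⟩ := three56 h3
  have hPl0 : 0 < Pl := by omega
  have hsupp' : ∀ e ∈ f.support, e = Finsupp.single 0 (3 * 1) ∨ e = Finsupp.single 1 (3 * 1) ∨ 1 * e 0 + 1 * e 1 < 3 * 1 * 1 := by
    intro e he
    have h1 := hsupp e he
    by_cases h2 : e 0 + e 1 < 3
    · right; right; omega
    · have hne := mem_support_iff.1 he
      have heq : ∀ x y, e 0 = x → e 1 = y → e = Finsupp.single 0 x + Finsupp.single 1 y := by
        intro x y hx hy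
        ext i
        fin_cases i
        · simpa using hx
        · simpa using hy
      have h3 : (e 0 = 3 ∧ e 1 = 0) ∨ (e 0 = 2 ∧ e 1 = 1) ∨ (e 0 = 1 ∧ e 1 = 2) ∨ (e 0 = 0 ∧ e 1 = 3) := by omega
      rcases h3 with ⟨h4, h5⟩ | ⟨h4, h5⟩ | ⟨h4, h5⟩ | ⟨h4, h5⟩
      · left
        rw [heq _ _ h4 h5]
        simp
      · rw [heq _ _ h4 h5] at hne
        exact absurd c21 hne
      · rw [heq _ _ h4 h5] at hne
        exact absurd c12 hne
      · right; left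
        rw [heq _ _ h4 h5]
        simp
  have hc := fun (j u0 u1 v0 v1 : ℕ) (hj : j ≤ 3) (hu0 : 1 ≤ u0) (hu1 : 1 ≤ u1) (hv0 : 1 ≤ v0) (hv1 : 1 ≤ v1)
    (hu : u0 + u1 = j) (hv : v0 + v1 = j) => coef56 (f := f) (P := P) (g := 3) (A := 1) (B := 1) (Pa := Pl) (Pl := Pl) (N := Pl * j)
      (by norm_num) (by norm_num) (by norm_num) (by omega) (by omega) rfl (by omega) hsupp' (by omega) hu0 hu1 hv0 hv1
      (by omega) (by omega)
  simp only [mul_one, c30, c03] at hc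
  refine blocks56 hP hPl hPl0 hsupp (fun j u0 => a ^ (Pl * u0) * b ^ (Pl * j - Pl * u0) * ((Pl * j).choose (Pl * u0) : k)) ?_ ?_ ?_ ?_ ?_
  · intro j u0 u1 v0 v1 hj hu0 hu1 hv0 hv1 hu hv
    rw [hc j u0 u1 v0 v1 hj hu0 hu1 hv0 hv1 hu hv]
    by_cases h : u0 = v0
    · rw [if_pos ⟨h, by omega⟩, if_pos h]
    · rw [if_neg (fun h' => h h'.1), if_neg h]
  · refine mul_ne_zero (mul_ne_zero (pow_ne_zero _ ha) (pow_ne_zero _ hb)) ?_
    rw [Ne, CharP.cast_eq_zero_iff k p]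
    exact choose56 (by omega) (by omega)
  · refine mul_ne_zero (mul_ne_zero (pow_ne_zero _ ha) (pow_ne_zero _ hb)) ?_
    rw [Ne, CharP.cast_eq_zero_iff k p]
    exact choose56 (by omega) (by omega)
  · refine mul_ne_zero (mul_ne_zero (pow_ne_zero _ ha) (pow_ne_zero _ hb)) ?_
    rw [Ne, CharP.cast_eq_zero_iff k p]
    exact choose56 (by omega) (by omega)
  · intro heq
    have e1 : Pl * 3 = P := by omega
    have e2 : Pl * 3 - Pl * 1 = 2 * Pl := by omega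
    have e3 : Pl * 3 - Pl * 2 = Pl := by omega
    have b1 : ((P.choose (Pl * 1) : ℕ) : k) = 1 := by
      rw [choose_pred56 hP _ (by omega), hm]
      exact Even.neg_one_pow ⟨m, by ring⟩
    have b2 : ((P.choose (Pl * 2) : ℕ) : k) = 1 := by
      rw [choose_pred56 hP _ (by omega), hm]
      exact Even.neg_one_pow ⟨2 * m, by ring⟩
    simp only [e2, e3] at heq
    rw [e1, b1, b2, mul_one, mul_one, mul_one] at heq
    set R : ℕ := ∑ i ∈ range s, (P + 1) ^ i with hR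
    have hgeo := geo56 P s
    rw [← hR] at hgeo
    have h4 : (a ^ Pl * b ^ Pl) ^ R * (b ^ Pl) ^ R = (a ^ Pl * b ^ Pl) ^ R * (a ^ Pl) ^ R := by
      calc (a ^ Pl * b ^ Pl) ^ R * (b ^ Pl) ^ R = (a ^ Pl * b ^ (2 * Pl)) ^ R := by ring
        _ = (a ^ (Pl * 2) * b ^ Pl) ^ R := heq
        _ = (a ^ Pl * b ^ Pl) ^ R * (a ^ Pl) ^ R := by ring
    have h5 := mul_left_cancel₀ (pow_ne_zero _ (mul_ne_zero (pow_ne_zero _ ha) (pow_ne_zero _ hb))) h4
    obtain ⟨y, hy⟩ := rpow56 (h := a / b) (div_ne_zero ha hb) (r := 3) (n := Pl * R) (by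
      rw [hk, hP, ← hgeo, hPl]
      ring) (by
      rw [div_pow, pow_mul, pow_mul, h5, div_self]
      exact pow_ne_zero _ (pow_ne_zero _ ha))
    apply hab y
    rw [← hy, div_mul_cancel₀ _ hb]

/-- the blocks of `A x³ + C x y² + ..` -/
theorem cub_A {p : ℕ} [Fact p.Prime] {k : Type} [Field k] [Fintype k] {s : ℕ} (hk : Fintype.card k = p ^ s) (h3 : 3 ∣ p - 1)
    {f : MvPolynomial (Fin 2) k} (hsupp : ∀ e ∈ f.support, e 0 + e 1 ≤ 3) {a c : k} (ha : a ≠ 0) (hc : c ≠ 0)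
    (c30 : f.coeff (Finsupp.single 0 3) = a) (c21 : f.coeff (Finsupp.single 0 2 + Finsupp.single 1 1) = 0)
    (c12 : f.coeff (Finsupp.single 0 1 + Finsupp.single 1 2) = c) (c03 : f.coeff (Finsupp.single 1 3) = 0)
    (hac : ∀ x : k, -a ≠ x ^ 2 * c) : PolyBlocks p s 3 {(1, 1)} f := by
  classical
  have hch : CharP k p := charP_of_card_eq_prime_pow hk
  obtain ⟨P, Pl, m, hP, hPl, hm, hm0⟩ := three56 h3
  have hPl0 : 0 < Pl := by omega
  have heq : ∀ (e : Fin 2 →₀ ℕ) (x y : ℕ), e 0 = x → e 1 = y → e = Finsupp.single 0 x + Finsupp.single 1 y := by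
    intro e x y hx hy
    ext i
    fin_cases i
    · simpa using hx
    · simpa using hy
  set T : MvPolynomial (Fin 2) k := monomial (Finsupp.single 0 3) a + monomial (Finsupp.single 0 1 + Finsupp.single 1 2) c with hT
  have hTc : ∀ e : Fin 2 →₀ ℕ, T.coeff e = if e 0 = 3 ∧ e 1 = 0 then a else if e 0 = 1 ∧ e 1 = 2 then c else 0 := by
    intro e
    rw [hT, coeff_add, coeff_monomial, coeff_monomial]
    have h1 : (Finsupp.single (0 : Fin 2) 3 = e) ↔ (e 0 = 3 ∧ e 1 = 0) := by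
      constructor
      · rintro rfl
        simp
      · rintro ⟨h4, h5⟩
        rw [heq e _ _ h4 h5]
        simp
    have h2 : (Finsupp.single (0 : Fin 2) 1 + Finsupp.single 1 2 = e) ↔ (e 0 = 1 ∧ e 1 = 2) := by
      constructor
      · rintro rfl
        simp
      · rintro ⟨h4, h5⟩
        rw [heq e _ _ h4 h5]
    by_cases h4 : e 0 = 3 ∧ e 1 = 0
    · rw [if_pos (h1.2 h4), if_pos h4, if_neg (fun h => by have := h2.1 h; omega), add_zero]
    · rw [if_neg (fun h => h4 (h1.1 h)), if_neg h4, zero_add]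
      by_cases h5 : e 0 = 1 ∧ e 1 = 2
      · rw [if_pos (h2.2 h5), if_pos h5]
      · rw [if_neg (fun h => h5 (h2.1 h)), if_neg h5]
  have hfc : ∀ e : Fin 2 →₀ ℕ, 3 ≤ wt56 1 1 e → f.coeff e = T.coeff e := by
    intro e he
    unfold wt56 at he
    rw [hTc]
    by_cases hgt : 3 < e 0 + e 1
    · rw [if_neg (by omega), if_neg (by omega)]
      by_contra hne
      have := hsupp e (mem_support_iff.2 hne)
      omega
    · have h6 : (e 0 = 3 ∧ e 1 = 0) ∨ (e 0 = 2 ∧ e 1 = 1) ∨ (e 0 = 1 ∧ e 1 = 2) ∨ (e 0 = 0 ∧ e 1 = 3) := by omega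
      rcases h6 with ⟨h4, h5⟩ | ⟨h4, h5⟩ | ⟨h4, h5⟩ | ⟨h4, h5⟩
      · rw [if_pos ⟨h4, h5⟩, heq e _ _ h4 h5, ← c30]
        simp
      · rw [if_neg (by omega), if_neg (by omega), heq e _ _ h4 h5, c21]
      · rw [if_neg (by omega), if_pos ⟨h4, h5⟩, heq e _ _ h4 h5, c12]
      · rw [if_neg (by omega), if_neg (by omega), heq e _ _ h4 h5, ← c03]
        simp
  have hTle : ∀ e, 3 < wt56 1 1 e → T.coeff e = 0 := by
    intro e he
    unfold wt56 at he
    rw [hTc, if_neg (by omega), if_neg (by omega)]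
  have hfle : ∀ e, 3 < wt56 1 1 e → f.coeff e = 0 := by
    intro e he
    rw [hfc e he.le, hTle e he]
  have hD : ∀ e, 3 ≤ wt56 1 1 e → (f - T).coeff e = 0 := by
    intro e he
    rw [coeff_sub, hfc e he, sub_self]
  -- the coefficients
  have hcoef : ∀ N x0 x1 : ℕ, x0 + x1 = N * 3 → (f ^ N).coeff (Finsupp.single 0 x0 + Finsupp.single 1 x1) =
      ∑ i ∈ range (N + 1), if N + 2 * i = x0 ∧ 2 * (N - i) = x1 then a ^ i * c ^ (N - i) * (N.choose i : k) else 0 := by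
    intro N x0 x1 hx
    set e : Fin 2 →₀ ℕ := Finsupp.single 0 x0 + Finsupp.single 1 x1 with he
    have he0 : e 0 = x0 := by
      rw [he]
      simp
    have he1 : e 1 = x1 := by
      rw [he]
      simp
    have h1 := wsub56 hfle hTle hD N e (by unfold wt56; rw [he0, he1]; omega)
    rw [coeff_sub, sub_eq_zero] at h1
    rw [h1, hT, TG56]
    refine Finset.sum_congr rfl fun i hi => ?_
    have hi' : i ≤ N := by
      rw [Finset.mem_range] at hi
      omega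
    have h2 : i • Finsupp.single (0 : Fin 2) 3 + (N - i) • (Finsupp.single 0 1 + Finsupp.single 1 2) = e ↔
        N + 2 * i = x0 ∧ 2 * (N - i) = x1 := by
      have e0 : (i • Finsupp.single (0 : Fin 2) 3 + (N - i) • (Finsupp.single 0 1 + Finsupp.single 1 2) : Fin 2 →₀ ℕ) 0 = N + 2 * i := by
        simp
        omega
      have e1 : (i • Finsupp.single (0 : Fin 2) 3 + (N - i) • (Finsupp.single 0 1 + Finsupp.single 1 2) : Fin 2 →₀ ℕ) 1 = 2 * (N - i) := by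
        simp
        omega
      constructor
      · intro h
        rw [← he0, ← he1, ← h, e0, e1]
        exact ⟨rfl, rfl⟩
      · rintro ⟨h4, h5⟩
        rw [heq _ _ _ e0 e1, h4, h5]
    by_cases h : N + 2 * i = x0 ∧ 2 * (N - i) = x1
    · rw [if_pos h, if_pos (h2.2 h)]
    · rw [if_neg h, if_neg (fun h' => h (h2.1 h'))]
  have hone : ∀ N x0 x1 i : ℕ, x0 + x1 = N * 3 → i ≤ N → N + 2 * i = x0 → 2 * (N - i) = x1 →
      (f ^ N).coeff (Finsupp.single 0 x0 + Finsupp.single 1 x1) = a ^ i * c ^ (N - i) * (N.choose i : k) := by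
    intro N x0 x1 i hx hi h1 h2
    rw [hcoef N x0 x1 hx, Finset.sum_eq_single i]
    · rw [if_pos ⟨h1, h2⟩]
    · intro j _ hj
      rw [if_neg]
      rintro ⟨h4, -⟩
      omega
    · intro h
      exact absurd (Finset.mem_range.2 (by omega)) h
  have hzero : ∀ N x0 x1 : ℕ, x0 + x1 = N * 3 → x1 % 2 = 1 →
      (f ^ N).coeff (Finsupp.single 0 x0 + Finsupp.single 1 x1) = 0 := by
    intro N x0 x1 hx h1
    rw [hcoef N x0 x1 hx]
    refine Finset.sum_eq_zero fun i _ => ?_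
    rw [if_neg]
    rintro ⟨-, h4⟩
    omega
  refine blocks56 hP hPl hPl0 hsupp (fun j u0 => if j = 2 then a ^ m * c ^ (Pl * 2 - m) * ((Pl * 2).choose m : k) else
    if u0 = 1 then c ^ P else a ^ (3 * m) * c ^ (P - 3 * m) * (P.choose (3 * m) : k)) ?_ ?_ ?_ ?_ ?_
  · intro j u0 u1 v0 v1 hj hu0 hu1 hv0 hv1 hu hv
    have hcase : (j = 2 ∧ u0 = 1 ∧ u1 = 1 ∧ v0 = 1 ∧ v1 = 1) ∨ (j = 3 ∧ u0 = 1 ∧ u1 = 2 ∧ v0 = 1 ∧ v1 = 2) ∨
        (j = 3 ∧ u0 = 1 ∧ u1 = 2 ∧ v0 = 2 ∧ v1 = 1) ∨ (j = 3 ∧ u0 = 2 ∧ u1 = 1 ∧ v0 = 1 ∧ v1 = 2) ∨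
        (j = 3 ∧ u0 = 2 ∧ u1 = 1 ∧ v0 = 2 ∧ v1 = 1) := by omega
    rcases hcase with ⟨rfl, rfl, rfl, rfl, rfl⟩ | ⟨rfl, rfl, rfl, rfl, rfl⟩ | ⟨rfl, rfl, rfl, rfl, rfl⟩ |
      ⟨rfl, rfl, rfl, rfl, rfl⟩ | ⟨rfl, rfl, rfl, rfl, rfl⟩
    · rw [if_pos rfl, if_pos rfl]
      exact hone _ _ _ m (by omega) (by omega) (by omega) (by omega)
    · have e3 : Pl * 3 = P := by omega
      rw [if_pos rfl, if_neg (by norm_num), if_pos rfl, e3, hone P _ _ 0 (by omega) (by omega) (by omega) (by omega)]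
      simp
    · rw [if_neg (by norm_num)]
      exact hzero _ _ _ (by omega) (by omega)
    · rw [if_neg (by norm_num)]
      exact hzero _ _ _ (by omega) (by omega)
    · have e3 : Pl * 3 = P := by omega
      rw [if_pos rfl, if_neg (by norm_num), if_neg (by norm_num), e3]
      exact hone P _ _ (3 * m) (by omega) (by omega) (by omega) (by omega)
  · simp only [if_true]
    refine mul_ne_zero (mul_ne_zero (pow_ne_zero _ ha) (pow_ne_zero _ hc)) ?_
    rw [Ne, CharP.cast_eq_zero_iff k p]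
    exact choose56 (by omega) (by omega)
  · norm_num
    exact fun h => absurd h hc
  · norm_num
    refine ⟨⟨fun h => absurd h ha, fun h => absurd h hc⟩, ?_⟩
    rw [CharP.cast_eq_zero_iff k p]
    exact choose56 (by omega) (by omega)
  · intro h
    norm_num at h
    set R : ℕ := ∑ i ∈ range s, (P + 1) ^ i with hR
    have hgeo := geo56 P s
    rw [← hR] at hgeo
    have hcq : (c ^ P) ^ R = 1 := by
      have h4 := FiniteField.pow_card_sub_one_eq_one c hc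
      rw [hk, hP, ← hgeo, Nat.add_sub_cancel] at h4
      rw [← pow_mul]
      exact h4
    have e3 : P - 3 * m = 3 * m := by omega
    rw [hcq, choose_pred56 hP _ (by omega), e3] at h
    obtain ⟨y, hy⟩ := rpow56 (h := -a / c) (div_ne_zero (neg_ne_zero.2 ha) hc) (r := 2) (n := 3 * m * R) (by
      rw [hk, hP, ← hgeo, hPl, hm]
      ring) (by
      have h5 : (-a / c) ^ (3 * m * R) * (c ^ P) ^ R = (a ^ (3 * m) * c ^ (3 * m) * (-1) ^ (3 * m)) ^ R := by
        have h6 : P = 3 * m + 3 * m := by omega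
        rw [pow_mul, ← mul_pow]
        congr 1
        rw [h6, pow_add, ← mul_assoc, div_pow, div_mul_cancel₀ _ (pow_ne_zero _ hc), neg_pow]
        ring
      rw [hcq, mul_one] at h5
      rw [h5, ← h])
    apply hac y
    rw [← hy, div_mul_cancel₀ _ hc]

end cub56

end Pool.Agent.Helper9.WS
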