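import Pool.Agent.Helper9.WS.Defs4

/-!
# WS-23: the family `α x ^ a + β y ^ b + ` lower terms
-/

open MvPolynomial Finset

namespace Pool.Agent.Helper9.WS

section fermat56

variable {k : Type} [Field k]

def wt56 (A B : ℕ) (e : Fin 2 →₀ ℕ) : ℕ := B * e 0 + A * e 1

lemma wt56_add (A B : ℕ) (e e' : Fin 2 →₀ ℕ) : wt56 A B (e + e') = wt56 A B e + wt56 A B e' := by
  unfold wt56
  simp only [Finsupp.add_apply]
  ring

lemma wmul56 {A B n m : ℕ} {P Q : MvPolynomial (Fin 2) k} (hP : ∀ e, n ≤ wt56 A B e → P.coeff e = 0)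
    (hQ : ∀ e, m < wt56 A B e → Q.coeff e = 0) (e : Fin 2 →₀ ℕ) (he : n + m ≤ wt56 A B e) :
    (P * Q).coeff e = 0 := by
  classical
  rw [coeff_mul]
  refine Finset.sum_eq_zero fun x hx => ?_
  rw [HasAntidiagonal.mem_antidiagonal] at hx
  have h1 : wt56 A B e = wt56 A B x.1 + wt56 A B x.2 := by rw [← hx, wt56_add]
  by_cases h : n ≤ wt56 A B x.1
  · rw [hP _ h, zero_mul]
  · rw [hQ x.2 (by omega), mul_zero]

lemma wpow56 {A B l : ℕ} {P : MvPolynomial (Fin 2) k} (hP : ∀ e, l < wt56 A B e → P.coeff e = 0)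
    (N : ℕ) : ∀ e, N * l < wt56 A B e → (P ^ N).coeff e = 0 := by
  classical
  induction N with
  | zero =>
    intro e he
    rw [pow_zero, coeff_one, if_neg]
    intro h
    rw [← h] at he
    unfold wt56 at he
    simp at he
  | succ N ih =>
    intro e he
    rw [pow_succ]
    refine wmul56 (n := N * l + 1) (m := l) (fun e h => ih e h) hP e ?_
    rw [add_mul, one_mul] at he
    omega

lemma wsub56 {A B l : ℕ} {P T : MvPolynomial (Fin 2) k} (hP : ∀ e, l < wt56 A B e → P.coeff e = 0)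
    (hT : ∀ e, l < wt56 A B e → T.coeff e = 0) (hD : ∀ e, l ≤ wt56 A B e → (P - T).coeff e = 0) (N : ℕ) :
    ∀ e, N * l ≤ wt56 A B e → (P ^ N - T ^ N).coeff e = 0 := by
  induction N with
  | zero =>
    intro e _
    simp
  | succ N ih =>
    intro e he
    rw [add_mul, one_mul] at he
    have h1 : P ^ (N + 1) - T ^ (N + 1) = (P - T) * P ^ N + (P ^ N - T ^ N) * T := by ring
    rw [h1, coeff_add, wmul56 hD (wpow56 hP N) e (by omega), wmul56 ih hT e he, add_zero]

lemma T56 (α β : k) (a b N : ℕ) (e : Fin 2 →₀ ℕ) :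
    ((monomial (Finsupp.single 0 a) α + monomial (Finsupp.single 1 b) β : MvPolynomial (Fin 2) k) ^ N).coeff e =
      ∑ m ∈ range (N + 1), if a * m = e 0 ∧ b * (N - m) = e 1 then α ^ m * β ^ (N - m) * (N.choose m : k) else 0 := by
  classical
  rw [add_pow, coeff_sum]
  refine Finset.sum_congr rfl fun m _ => ?_
  rw [monomial_pow, monomial_pow, monomial_mul]
  have h1 : (monomial (m • Finsupp.single (0 : Fin 2) a + (N - m) • Finsupp.single 1 b)) (α ^ m * β ^ (N - m)) *
      ((N.choose m : ℕ) : MvPolynomial (Fin 2) k) =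
      monomial (m • Finsupp.single (0 : Fin 2) a + (N - m) • Finsupp.single 1 b) (α ^ m * β ^ (N - m) * (N.choose m : k)) := by
    rw [← map_natCast (C : k →+* MvPolynomial (Fin 2) k) (N.choose m), mul_comm, C_mul_monomial, mul_comm]
  rw [h1, coeff_monomial]
  have h2 : m • Finsupp.single (0 : Fin 2) a + (N - m) • Finsupp.single 1 b = e ↔ a * m = e 0 ∧ b * (N - m) = e 1 := by
    constructor
    · intro h
      rw [← h]
      constructor
      · simp [mul_comm]
      · simp [mul_comm]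
    · rintro ⟨h3, h4⟩
      ext i
      fin_cases i
      · simp only [Finsupp.add_apply, Finsupp.smul_apply, smul_eq_mul]
        simp [← h3, mul_comm]
      · simp only [Finsupp.add_apply, Finsupp.smul_apply, smul_eq_mul]
        simp [← h4, mul_comm]
  by_cases h : a * m = e 0 ∧ b * (N - m) = e 1
  · rw [if_pos h, if_pos (h2.2 h)]
  · rw [if_neg h, if_neg (fun h' => h (h2.1 h'))]

/-- the coefficients of the power of the highest weight -/
lemma coef56 {f : MvPolynomial (Fin 2) k} {P g A B Pa Pl j N : ℕ} (hg : 0 < g) (hA : 0 < A) (hB : 0 < B)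
    (hPa : P = g * A * Pa) (hPl : P = g * A * B * Pl) (hN : N = Pl * j) (hPl0 : 0 < P)
    (hsupp : ∀ e ∈ f.support, e = Finsupp.single 0 (g * A) ∨ e = Finsupp.single 1 (g * B) ∨ B * e 0 + A * e 1 < g * A * B)
    (hj : j ≤ g * A * B) {u0 u1 v0 v1 : ℕ} (hu0 : 1 ≤ u0) (hu1 : 1 ≤ u1) (hv0 : 1 ≤ v0) (hv1 : 1 ≤ v1)
    (hu : B * u0 + A * u1 = j) (hv : B * v0 + A * v1 = j) :
    (f ^ N).coeff (Finsupp.single 0 ((P + 1) * u0 - v0) + Finsupp.single 1 ((P + 1) * u1 - v1)) =
      if u0 = v0 ∧ u1 = v1 then f.coeff (Finsupp.single 0 (g * A)) ^ (Pa * u0) * f.coeff (Finsupp.single 1 (g * B)) ^ (N - Pa * u0) *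
        (N.choose (Pa * u0) : k) else 0 := by
  classical
  set α : k := f.coeff (Finsupp.single 0 (g * A)) with hα
  set β : k := f.coeff (Finsupp.single 1 (g * B)) with hβ
  set T : MvPolynomial (Fin 2) k := monomial (Finsupp.single 0 (g * A)) α + monomial (Finsupp.single 1 (g * B)) β with hT
  have hne : (Finsupp.single (0 : Fin 2) (g * A)) ≠ Finsupp.single 1 (g * B) := by
    intro h
    have h1 := DFunLike.congr_fun h 0
    simp only [Finsupp.single_eq_same, Finsupp.single_apply] at h1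
    norm_num at h1
    omega
  have hw0 : wt56 A B (Finsupp.single 0 (g * A)) = g * A * B := by
    unfold wt56
    simp
    ring
  have hw1 : wt56 A B (Finsupp.single 1 (g * B)) = g * A * B := by
    unfold wt56
    simp
    ring
  have hTc : ∀ e, T.coeff e = if e = Finsupp.single 0 (g * A) then α else if e = Finsupp.single 1 (g * B) then β else 0 := by
    intro e
    rw [hT, coeff_add, coeff_monomial, coeff_monomial]
    by_cases h0 : e = Finsupp.single 0 (g * A)
    · rw [if_pos h0.symm, if_pos h0, if_neg (fun h => hne (h0.symm.trans h.symm)), add_zero]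
    · rw [if_neg (fun h => h0 h.symm), if_neg h0, zero_add]
      by_cases h1 : e = Finsupp.single 1 (g * B)
      · rw [if_pos h1.symm, if_pos h1]
      · rw [if_neg (fun h => h1 h.symm), if_neg h1]
  have hfle : ∀ e, g * A * B < wt56 A B e → f.coeff e = 0 := by
    intro e he
    by_contra hcon
    rcases hsupp e (mem_support_iff.2 hcon) with h | h | h
    · rw [h, hw0] at he
      omega
    · rw [h, hw1] at he
      omega
    · unfold wt56 at he
      omega
  have hTle : ∀ e, g * A * B < wt56 A B e → T.coeff e = 0 := by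
    intro e he
    rw [hTc, if_neg, if_neg]
    · rintro rfl
      rw [hw1] at he
      omega
    · rintro rfl
      rw [hw0] at he
      omega
  have hD : ∀ e, g * A * B ≤ wt56 A B e → (f - T).coeff e = 0 := by
    intro e he
    rw [coeff_sub, hTc]
    by_cases h0 : e = Finsupp.single 0 (g * A)
    · rw [if_pos h0, h0, sub_self]
    · rw [if_neg h0]
      by_cases h1 : e = Finsupp.single 1 (g * B)
      · rw [if_pos h1, h1, sub_self]
      · rw [if_neg h1, sub_zero]
        by_contra hcon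
        rcases hsupp e (mem_support_iff.2 hcon) with h | h | h
        · exact h0 h
        · exact h1 h
        · unfold wt56 at he
          omega
  -- the exponents
  have hAu : 1 ≤ A * u1 := Nat.mul_pos hA hu1
  have hAv : 1 ≤ A * v1 := Nat.mul_pos hA hv1
  have hBu : 1 ≤ B * u0 := Nat.mul_pos hB hu0
  have hBv : 1 ≤ B * v0 := Nat.mul_pos hB hv0
  have hPl1 : 1 ≤ Pl := by
    rcases Nat.eq_zero_or_pos Pl with h | h
    · rw [h, mul_zero] at hPl
      omega
    · exact h
  have hjP : j ≤ P := by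
    rw [hPl]
    exact hj.trans (Nat.le_mul_of_pos_right _ hPl1)
  have hv0j : v0 ≤ j := by
    have := Nat.le_mul_of_pos_left v0 hB
    omega
  have hv1j : v1 ≤ j := by
    have := Nat.le_mul_of_pos_left v1 hA
    omega
  obtain ⟨x0, hx0⟩ : ∃ x0, (P + 1) * u0 = x0 + v0 := by
    refine ⟨(P + 1) * u0 - v0, ?_⟩
    have : P + 1 ≤ (P + 1) * u0 := Nat.le_mul_of_pos_right _ hu0
    omega
  obtain ⟨x1, hx1⟩ : ∃ x1, (P + 1) * u1 = x1 + v1 := by
    refine ⟨(P + 1) * u1 - v1, ?_⟩
    have : P + 1 ≤ (P + 1) * u1 := Nat.le_mul_of_pos_right _ hu1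
    omega
  rw [hx0, hx1, Nat.add_sub_cancel, Nat.add_sub_cancel]
  have hwx : B * x0 + A * x1 = N * (g * A * B) := by
    have h1 : B * (x0 + v0) + A * (x1 + v1) = (P + 1) * j := by
      rw [← hx0, ← hx1, ← hu]
      ring
    have h2 : N * (g * A * B) = P * j := by
      rw [hN, hPl]
      ring
    rw [h2]
    have h3 : B * (x0 + v0) + A * (x1 + v1) = B * x0 + A * x1 + j := by
      rw [← hv]
      ring
    rw [h3, add_mul, one_mul] at h1
    omega
  set e : Fin 2 →₀ ℕ := Finsupp.single 0 x0 + Finsupp.single 1 x1 with he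
  have he0 : e 0 = x0 := by
    rw [he]
    simp
  have he1 : e 1 = x1 := by
    rw [he]
    simp
  have hwe : wt56 A B e = N * (g * A * B) := by
    unfold wt56
    rw [he0, he1, hwx]
  have h1 := wsub56 hfle hTle hD N e hwe.ge
  rw [coeff_sub, sub_eq_zero] at h1
  rw [h1, hT, T56, he0, he1]
  have hlt : ∀ x y : ℕ, 1 ≤ A * y → B * x + A * y = j → x < g * A := by
    intro x y hy hxy
    by_contra hcon
    push Not at hcon
    have : B * (g * A) ≤ B * x := Nat.mul_le_mul_left B hcon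
    have h4 : B * (g * A) = g * A * B := by ring
    omega
  by_cases huv : u0 = v0 ∧ u1 = v1
  · rw [if_pos huv]
    obtain ⟨rfl, rfl⟩ := huv
    have hx0' : x0 = g * A * (Pa * u0) := by
      have : x0 = P * u0 := by
        rw [add_mul, one_mul] at hx0
        omega
      rw [this, hPa]
      ring
    have hmN : Pa * u0 ≤ N := by
      have h2 : (Pa * u0) * (g * A * B) ≤ N * (g * A * B) := by
        rw [← hwx, hx0']
        have : Pa * u0 * (g * A * B) = B * (g * A * (Pa * u0)) := by ring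
        omega
      exact Nat.le_of_mul_le_mul_right h2 (by positivity)
    have hx1' : x1 = g * B * (N - Pa * u0) := by
      obtain ⟨z, hz⟩ := Nat.exists_eq_add_of_le hmN
      have h2 : A * x1 = A * (g * B * z) := by
        have h3 : B * x0 + A * x1 = B * x0 + A * (g * B * z) := by
          rw [hwx, hx0']
          conv_lhs => rw [hz]
          ring
        omega
      have h3 : x1 = g * B * z := Nat.eq_of_mul_eq_mul_left hA h2
      rw [h3, hz, Nat.add_sub_cancel_left]
    rw [Finset.sum_eq_single (Pa * u0)]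
    · rw [if_pos ⟨hx0'.symm, hx1'.symm⟩]
    · intro m _ hm
      rw [if_neg]
      rintro ⟨h2, -⟩
      rw [hx0'] at h2
      exact hm (Nat.eq_of_mul_eq_mul_left (by positivity) h2)
    · intro h
      exact absurd (Finset.mem_range.2 (by omega)) h
  · rw [if_neg huv]
    refine Finset.sum_eq_zero fun m _ => ?_
    rw [if_neg]
    rintro ⟨h2, -⟩
    apply huv
    have hu0l := hlt u0 u1 hAu hu
    have hv0l := hlt v0 v1 hAv hv
    have h3 : u0 = v0 := by
      have h4 : u0 % (g * A) = v0 % (g * A) := by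
        have h5 : (P + 1) * u0 = v0 + g * A * m := by rw [h2, hx0]; ring
        have h6 : (P + 1) * u0 = u0 + g * A * (Pa * u0) := by rw [hPa]; ring
        have h7 : u0 + g * A * (Pa * u0) = v0 + g * A * m := by rw [← h6, h5]
        have h8 := congrArg (· % (g * A)) h7
        simpa [Nat.add_mul_mod_self_left] using h8
      rwa [Nat.mod_eq_of_lt hu0l, Nat.mod_eq_of_lt hv0l] at h4
    refine ⟨h3, ?_⟩
    have h4 : A * u1 = A * v1 := by
      rw [h3] at hu
      omega
    exact Nat.eq_of_mul_eq_mul_left hA h4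

/-- powers in a finite field -/
lemma rpow56 [Fintype k] {h : k} (hh : h ≠ 0) {r n : ℕ} (hn : Fintype.card k = r * n + 1) (h1 : h ^ n = 1) :
    ∃ y : k, h = y ^ r := by
  classical
  obtain ⟨γ, hγ⟩ := IsCyclic.exists_generator (α := kˣ)
  have ho : orderOf γ = r * n := by
    rw [orderOf_eq_card_of_forall_mem_zpowers hγ, Nat.card_eq_fintype_card, Fintype.card_units, hn, Nat.add_sub_cancel]
  have hn0 : 0 < n := by
    rcases Nat.eq_zero_or_pos n with h0 | h0
    · rw [h0, mul_zero, zero_add] at hn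
      have := Fintype.one_lt_card (α := k)
      omega
    · exact h0
  have hmem := hγ (Units.mk0 h hh)
  rw [← mem_powers_iff_mem_zpowers] at hmem
  obtain ⟨z, hz⟩ := hmem
  have hz' : γ ^ z = Units.mk0 h hh := hz
  have h2 : γ ^ (z * n) = 1 := by
    rw [pow_mul, hz']
    ext
    simp [h1]
  have h3 := orderOf_dvd_of_pow_eq_one h2
  rw [ho] at h3
  obtain ⟨w, hw⟩ := Nat.dvd_of_mul_dvd_mul_right hn0 h3
  refine ⟨((γ ^ w : kˣ) : k), ?_⟩
  rw [← Units.val_pow_eq_pow_val, ← pow_mul, mul_comm w r, ← hw, hz']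
  rfl

lemma key56 [Fintype k] {h : k} (hh : h ≠ 0) {r g2 t1 e0 Q c : ℕ} (hr : r.Prime)
    (hq : Fintype.card k = r ^ (c + 1) * g2 * Q + 1) (h1 : h ^ (Q * (r ^ c * t1) * e0) = 1) (ht : ¬ r ∣ t1) (he : ¬ r ∣ e0) :
    ∃ y : k, h = y ^ r := by
  have hX1 : (h ^ (Q * r ^ c)) ^ (t1 * e0) = 1 := by
    rw [← pow_mul, ← h1]
    congr 1
    ring
  have hX2 : (h ^ (Q * r ^ c)) ^ (r * g2) = 1 := by
    rw [← pow_mul]
    have h2 := FiniteField.pow_card_sub_one_eq_one h hh
    rw [hq, Nat.add_sub_cancel] at h2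
    rw [← h2]
    congr 1
    rw [pow_succ]
    ring
  have h3 := orderOf_dvd_of_pow_eq_one hX1
  have h4 := orderOf_dvd_of_pow_eq_one hX2
  have h5 : ¬ r ∣ orderOf (h ^ (Q * r ^ c)) := by
    intro h
    rcases (Nat.Prime.dvd_mul hr).1 (h.trans h3) with h6 | h6
    · exact ht h6
    · exact he h6
  have h6 : Nat.Coprime (orderOf (h ^ (Q * r ^ c))) r := ((Nat.Prime.coprime_iff_not_dvd hr).2 h5).symm
  have h7 := Nat.Coprime.dvd_of_dvd_mul_left h6 h4
  have h8 : (h ^ (Q * r ^ c)) ^ g2 = 1 := orderOf_dvd_iff_pow_eq_one.1 h7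
  rw [← pow_mul] at h8
  refine rpow56 hh (n := Q * r ^ c * g2) ?_ h8
  rw [hq, pow_succ]
  ring

lemma prime56 {g t : ℕ} (h : ¬ g ∣ t) : ∃ r c : ℕ, r.Prime ∧ r ^ (c + 1) ∣ g ∧ ¬ r ^ (c + 1) ∣ t ∧ r ^ c ∣ t := by
  classical
  rw [Nat.dvd_iff_prime_pow_dvd_dvd] at h
  push Not at h
  obtain ⟨r, K, hr, h1, h2⟩ := h
  have hex : ∃ K, ¬ r ^ K ∣ t := ⟨K, h2⟩
  have h3 := Nat.find_spec hex
  have h4 := Nat.find_min' hex h2
  have h5 : Nat.find hex ≠ 0 := by
    intro h0
    rw [h0, pow_zero] at h3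
    exact h3 (one_dvd _)
  obtain ⟨c, hc⟩ := Nat.exists_eq_succ_of_ne_zero h5
  rw [hc] at h3 h4
  refine ⟨r, c, hr, (pow_dvd_pow r h4).trans h1, h3, ?_⟩
  by_contra hcon
  have := Nat.find_min' hex hcon
  omega

lemma geo56 (P s : ℕ) : P * (∑ i ∈ range s, (P + 1) ^ i) + 1 = (P + 1) ^ s := by
  induction s with
  | zero => simp
  | succ s ih =>
    rw [sum_range_succ, mul_add, add_right_comm, ih, pow_succ]
    ring

lemma geo_dvd56 {P s d : ℕ} (h1 : d ∣ P) (h2 : d ∣ s) : d ∣ ∑ i ∈ range s, (P + 1) ^ i := by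
  have h3 : ∀ s, ∑ i ∈ range s, (P + 1) ^ i ≡ s [MOD d] := by
    intro s
    induction s with
    | zero => simp [Nat.ModEq.refl]
    | succ s ih =>
      rw [sum_range_succ]
      refine Nat.ModEq.add ih ?_
      have h4 : P + 1 ≡ 1 [MOD d] := by
        have : P ≡ 0 [MOD d] := (Nat.modEq_zero_iff_dvd).2 h1
        simpa using this.add_right 1
      simpa using h4.pow s
  exact (Nat.modEq_zero_iff_dvd).1 ((h3 s).trans ((Nat.modEq_zero_iff_dvd).2 h2))

lemma natpow56 {p : ℕ} [Fact p.Prime] [CharP k p] {n : ℕ} (hn : ¬ p ∣ n) : ((n : ℕ) : k) ^ (p - 1) = 1 := by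
  have h1 : ((n : ℕ) : ZMod p) ≠ 0 := by
    intro h
    exact hn ((ZMod.natCast_eq_zero_iff n p).1 h)
  have h2 := ZMod.pow_card_sub_one_eq_one h1
  have h3 := congrArg (ZMod.castHom (dvd_refl p) k) h2
  rwa [map_pow, map_natCast, map_one] at h3

lemma choose56 {p N m : ℕ} [Fact p.Prime] (hN : N < p) (hm : m ≤ N) : ¬ p ∣ N.choose m := by
  intro h
  have h5 := (Nat.Prime.dvd_factorial (Fact.out : p.Prime)).1 (h.trans ⟨m.factorial * (N - m).factorial, by
    rw [← mul_assoc]
    exact (Nat.choose_mul_factorial_mul_factorial hm).symm⟩)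
  omega

/-- two different diagonal entries -/
lemma sep56 {p : ℕ} [Fact p.Prime] [Fintype k] [CharP k p] {P s g A B Pa N : ℕ} (hp : p = P + 1)
    (hk : Fintype.card k = (P + 1) ^ s) (hPa : P = g * A * Pa) (hcop : Nat.Coprime A B)
    {α β : k} (hα : α ≠ 0) (hβ : β ≠ 0) (hval : ∀ r j : ℕ, r.Prime → r ∣ g → r ^ j ∣ P → r ^ j ∣ s)
    {u0 u1 v0 v1 : ℕ} (huv : B * u0 + A * u1 = B * v0 + A * v1) (hlt : v0 < u0) (hua : u0 < g * A) (hN : N ≤ P)
    (hm : Pa * u0 ≤ N)
    (hc : (α ^ (Pa * u0) * β ^ (N - Pa * u0) * (N.choose (Pa * u0) : k)) ^ (∑ i ∈ range s, (P + 1) ^ i) =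
      (α ^ (Pa * v0) * β ^ (N - Pa * v0) * (N.choose (Pa * v0) : k)) ^ (∑ i ∈ range s, (P + 1) ^ i)) :
    ∃ r : ℕ, r.Prime ∧ r ∣ g ∧ ∃ y : k, α = y ^ r * β := by
  set R : ℕ := ∑ i ∈ range s, (P + 1) ^ i with hR
  have hgeo := geo56 P s
  rw [← hR] at hgeo
  obtain ⟨D, hD⟩ := Nat.exists_eq_add_of_lt hlt
  have hD' : u0 = v0 + (D + 1) := by omega
  have hAD : A ∣ D + 1 := by
    have h1 : B * (D + 1) + A * u1 = A * v1 := by
      rw [hD', mul_add] at huv
      omega
    have h2 : A ∣ B * (D + 1) := by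
      have h3 : A ∣ B * (D + 1) + A * u1 := by
        rw [h1]
        exact dvd_mul_right _ _
      exact (Nat.dvd_add_left (dvd_mul_right A u1)).1 h3
    exact Nat.Coprime.dvd_of_dvd_mul_left hcop h2
  obtain ⟨t, ht⟩ := hAD
  have ht0 : 0 < t := by
    rcases Nat.eq_zero_or_pos t with h | h
    · rw [h, mul_zero] at ht
      omega
    · exact h
  have htg : t < g := by
    have h1 : A * t < A * g := by
      rw [← ht, mul_comm A g]
      omega
    exact lt_of_mul_lt_mul_left h1 (Nat.zero_le _)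
  obtain ⟨r, c, hr, h1, h2, h3⟩ := prime56 (g := g) (t := t) (fun h => absurd (Nat.le_of_dvd ht0 h) (by omega))
  obtain ⟨g2, hg2⟩ := h1
  obtain ⟨t1, ht1⟩ := h3
  have hrt1 : ¬ r ∣ t1 := by
    rintro ⟨z, hz⟩
    apply h2
    rw [ht1, hz, pow_succ]
    exact ⟨z, by ring⟩
  have hrg : r ∣ g := by
    rw [hg2, pow_succ]
    exact ⟨r ^ c * g2, by ring⟩
  have hP0 : P ≠ 0 := by
    intro h
    have := (Fact.out : p.Prime).one_lt
    omega
  obtain ⟨E, e0, he0, hE⟩ := Nat.exists_eq_pow_mul_and_not_dvd hP0 r hr.ne_one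
  have hRd : r ^ E ∣ R := geo_dvd56 (by rw [hE]; exact dvd_mul_right _ _) (hval r E hr hrg (by rw [hE]; exact dvd_mul_right _ _))
  obtain ⟨R1, hR1⟩ := hRd
  have hbin : ∀ m, m ≤ N → ((N.choose m : ℕ) : k) ^ (R * e0) = 1 := by
    intro m hmN
    have h4 : ¬ p ∣ N.choose m := choose56 (by omega) hmN
    have h5 := natpow56 (k := k) h4
    have h6 : R * e0 = (p - 1) * R1 := by
      rw [hp, Nat.add_sub_cancel, hR1]
      conv_rhs => rw [hE]
      ring
    rw [h6, pow_mul, h5, one_pow]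
  have hm' : Pa * u0 = Pa * v0 + Pa * (A * t) := by rw [hD', ht, mul_add]
  obtain ⟨z, hz⟩ := Nat.exists_eq_add_of_le hm
  have hz1 : N - Pa * u0 = z := by rw [hz, Nat.add_sub_cancel_left]
  have hz2 : N - Pa * v0 = z + Pa * (A * t) := by
    rw [hz, hm']
    omega
  have hpow := congrArg (· ^ e0) hc
  rw [← pow_mul, ← pow_mul, mul_pow, mul_pow _ ((N.choose (Pa * v0) : ℕ) : k), hbin _ hm, hbin _ (by omega), mul_one, mul_one, hz1, hz2, hm',
    pow_add, pow_add] at hpow
  set Δ : ℕ := Pa * (A * t) with hΔ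
  have hαβ : (α ^ Δ) ^ (R * e0) = (β ^ Δ) ^ (R * e0) := by
    have h4 : (α ^ (Pa * v0) * β ^ z) ^ (R * e0) * (α ^ Δ) ^ (R * e0) = (α ^ (Pa * v0) * β ^ z) ^ (R * e0) * (β ^ Δ) ^ (R * e0) := by
      rw [← mul_pow, ← mul_pow]
      calc (α ^ (Pa * v0) * β ^ z * α ^ Δ) ^ (R * e0) = (α ^ (Pa * v0) * α ^ Δ * β ^ z) ^ (R * e0) := by ring
        _ = _ := by
          rw [hpow]
          ring
    exact mul_left_cancel₀ (pow_ne_zero _ (mul_ne_zero (pow_ne_zero _ hα) (pow_ne_zero _ hβ))) h4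
  have hh : (α / β) ^ (Pa * A * R * (r ^ c * t1) * e0) = 1 := by
    have h4 : Pa * A * R * (r ^ c * t1) * e0 = Δ * (R * e0) := by
      rw [hΔ, ← ht1]
      ring
    rw [h4, div_pow, pow_mul α, pow_mul β, hαβ, div_self]
    exact pow_ne_zero _ (pow_ne_zero _ hβ)
  obtain ⟨y, hy⟩ := key56 (div_ne_zero hα hβ) hr (Q := Pa * A * R) (g2 := g2) (c := c) (by
    rw [hk, ← hgeo, hPa, hg2]
    ring) hh hrt1 he0
  refine ⟨r, hr, hrg, y, ?_⟩
  rw [← hy, div_mul_cancel₀ _ hβ]

lemma mprod_diag56 {J : Type} [Fintype J] [DecidableEq J] (d : ℕ → J → k) (s : ℕ) :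
    mprod (fun i => Matrix.diagonal (d i)) s = Matrix.diagonal (fun u => ∏ i ∈ range s, d i u) := by
  induction s with
  | zero =>
    rw [mprod]
    simp
  | succ s ih =>
    rw [mprod, ih, Matrix.diagonal_mul_diagonal]
    congr 1
    funext u
    rw [prod_range_succ, mul_comm]

end fermat56

/-! WS-23 -/

theorem fermat_poly {p : ℕ} [Fact p.Prime] {k : Type} [Field k] [Fintype k] {s : ℕ}
    (hk : Fintype.card k = p ^ s) {a b : ℕ} {f : MvPolynomial (Fin 2) k}
    (hf : FermatType p s a b f) : ∃ l S, PolyBlocks p s l S f := by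
  classical
  have hch : CharP k p := charP_of_card_eq_prime_pow hk
  obtain ⟨A, B, hcop, ha, hb⟩ := Nat.exists_coprime a b
  set g := Nat.gcd a b with hg
  have ha' : a = g * A := by rw [mul_comm]; exact ha
  have hb' : b = g * B := by rw [mul_comm]; exact hb
  clear_value g
  clear ha hb
  subst ha' hb'
  have hg0 : 0 < g := Nat.pos_of_mul_pos_right hf.a_pos
  have hA0 : 0 < A := Nat.pos_of_mul_pos_left hf.a_pos
  have hB0 : 0 < B := Nat.pos_of_mul_pos_left hf.b_pos
  obtain ⟨P, hP⟩ : ∃ P, p = P + 1 := ⟨p - 1, by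
    have := (Fact.out : p.Prime).one_lt
    omega⟩
  have hP0 : 0 < P := by
    have := (Fact.out : p.Prime).one_lt
    omega
  have hPs : p - 1 = P := by omega
  obtain ⟨Pa, hPa⟩ := hf.dvd_a
  obtain ⟨Pb, hPb⟩ := hf.dvd_b
  rw [hPs] at hPa hPb
  have hPab : A * Pa = B * Pb := by
    have h1 : g * (A * Pa) = g * (B * Pb) := by
      rw [← mul_assoc, ← mul_assoc, ← hPa, ← hPb]
    exact Nat.eq_of_mul_eq_mul_left hg0 h1
  obtain ⟨Pl, hPl⟩ : B ∣ Pa := Nat.Coprime.dvd_of_dvd_mul_left hcop.symm ⟨Pb, hPab⟩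
  have hPl' : P = g * A * B * Pl := by
    rw [hPa, hPl]
    ring
  set α : k := f.coeff (Finsupp.single 0 (g * A)) with hα
  set β : k := f.coeff (Finsupp.single 1 (g * B)) with hβ
  have hα0 : α ≠ 0 := hf.coeff_a
  have hβ0 : β ≠ 0 := hf.coeff_b
  have hwt : ∀ u : ℕ × ℕ, polyWt {(B, A)} u = B * u.1 + A * u.2 := by
    intro u
    unfold polyWt
    rw [Finset.sup_singleton]
  have hsupp : ∀ e ∈ f.support, e = Finsupp.single 0 (g * A) ∨ e = Finsupp.single 1 (g * B) ∨ B * e 0 + A * e 1 < g * A * B := by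
    intro e he
    rcases hf.supp e he with h | h | h
    · exact Or.inl h
    · exact Or.inr (Or.inl h)
    · refine Or.inr (Or.inr ?_)
      have h1 : g * (B * e 0 + A * e 1) < g * (g * A * B) := by
        calc g * (B * e 0 + A * e 1) = g * B * e 0 + g * A * e 1 := by ring
          _ < g * A * (g * B) := h
          _ = g * (g * A * B) := by ring
      exact lt_of_mul_lt_mul_left h1 (Nat.zero_le _)
  -- the diagonal entries
  have hdiag : ∀ j ≤ g * A * B, (polyHasse p (g * A * B) {(B, A)} f j) =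
      fun i => Matrix.diagonal (fun u : polyIdx {(B, A)} (g * A * B) j => (α ^ (Pa * u.1.1) * β ^ (Pl * j - Pa * u.1.1) *
        ((Pl * j).choose (Pa * u.1.1) : k)) ^ p ^ i) := by
    intro j hj
    funext i
    ext u v
    have hu := u.2
    have hv := v.2
    unfold polyIdx at hu hv
    rw [Finset.mem_filter, Finset.mem_product, Finset.mem_Icc, Finset.mem_Icc, hwt] at hu hv
    obtain ⟨⟨⟨hu0, -⟩, ⟨hu1, -⟩⟩, hu2⟩ := hu
    obtain ⟨⟨⟨hv0, -⟩, ⟨hv1, -⟩⟩, hv2⟩ := hv
    unfold polyHasse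
    have hN : (p - 1) * j / (g * A * B) = Pl * j := by
      rw [hPs, hPl', mul_assoc, Nat.mul_div_cancel_left _ (by positivity)]
    rw [hN]
    have h1 := coef56 (f := f) hg0 hA0 hB0 hPa hPl' rfl hP0 hsupp hj hu0 hu1 hv0 hv1 hu2 hv2
    rw [hP, h1]
    by_cases huv : u = v
    · rw [if_pos ⟨by rw [huv], by rw [huv]⟩, huv, Matrix.diagonal_apply_eq]
    · rw [if_neg, Matrix.diagonal_apply_ne _ huv, zero_pow (pow_ne_zero _ (by omega))]
      rintro ⟨h2, h3⟩
      exact huv (Subtype.ext (Prod.ext h2 h3))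
  have hprod : ∀ j ≤ g * A * B, mprod (polyHasse p (g * A * B) {(B, A)} f j) s =
      Matrix.diagonal (fun u : polyIdx {(B, A)} (g * A * B) j => (α ^ (Pa * u.1.1) * β ^ (Pl * j - Pa * u.1.1) *
        ((Pl * j).choose (Pa * u.1.1) : k)) ^ ∑ i ∈ range s, (P + 1) ^ i) := by
    intro j hj
    rw [hdiag j hj, mprod_diag56]
    congr 1
    funext u
    rw [Finset.prod_pow_eq_pow_sum, hP]
  have hle : ∀ j ≤ g * A * B, Pl * j ≤ P := by
    intro j hj
    rw [hPl', mul_comm (g * A * B)]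
    exact Nat.mul_le_mul_left _ hj
  have hmle : ∀ (j : ℕ) (u : polyIdx {(B, A)} (g * A * B) j), Pa * u.1.1 ≤ Pl * j := by
    intro j u
    have hu := u.2
    unfold polyIdx at hu
    rw [Finset.mem_filter, hwt] at hu
    have h1 : B * u.1.1 ≤ j := by omega
    calc Pa * u.1.1 = Pl * (B * u.1.1) := by rw [hPl]; ring
      _ ≤ Pl * j := Nat.mul_le_mul_left _ h1
  refine ⟨g * A * B, {(B, A)}, by positivity, ?_, ⟨(B, A), by simp, hB0⟩, ⟨(B, A), by simp, hA0⟩, ?_, ?_, ?_⟩
  · rw [hPs, hPl']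
    exact dvd_mul_right _ _
  · intro e he
    rw [hwt]
    rcases hsupp e he with h | h | h
    · rw [h]
      simp
      exact le_of_eq (by ring)
    · rw [h]
      simp
      exact le_of_eq (by ring)
    · exact h.le
  · intro j hj
    rw [hprod j hj, Matrix.det_diagonal, Finset.prod_ne_zero_iff]
    intro u _
    refine pow_ne_zero _ (mul_ne_zero (mul_ne_zero (pow_ne_zero _ hα0) (pow_ne_zero _ hβ0)) ?_)
    rw [Ne, CharP.cast_eq_zero_iff k p]
    exact choose56 (by have := hle j hj; omega) (hmle j u)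
  · intro j hj
    rw [hprod j hj, Matrix.charpoly_diagonal, Polynomial.separable_prod_X_sub_C_iff]
    have hmain : ∀ u v : polyIdx {(B, A)} (g * A * B) j, v.1.1 < u.1.1 →
        (α ^ (Pa * u.1.1) * β ^ (Pl * j - Pa * u.1.1) * ((Pl * j).choose (Pa * u.1.1) : k)) ^ (∑ i ∈ range s, (P + 1) ^ i) ≠
        (α ^ (Pa * v.1.1) * β ^ (Pl * j - Pa * v.1.1) * ((Pl * j).choose (Pa * v.1.1) : k)) ^ (∑ i ∈ range s, (P + 1) ^ i) := by
      intro u v hlt heq
      have hu := u.2
      have hv := v.2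
      unfold polyIdx at hu hv
      rw [Finset.mem_filter, Finset.mem_product, Finset.mem_Icc, Finset.mem_Icc, hwt] at hu hv
      obtain ⟨⟨⟨hu0, -⟩, ⟨hu1, -⟩⟩, hu2⟩ := hu
      obtain ⟨⟨⟨hv0, -⟩, ⟨hv1, -⟩⟩, hv2⟩ := hv
      have hua : u.1.1 < g * A := by
        by_contra hcon
        push Not at hcon
        have h3 : B * (g * A) ≤ B * u.1.1 := Nat.mul_le_mul_left B hcon
        have h4 : B * (g * A) = g * A * B := by ring
        have h5 : 1 ≤ A * u.1.2 := Nat.mul_pos hA0 hu1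
        omega
      obtain ⟨r, hr, hrg, y, hy⟩ := sep56 (k := k) (p := p) (A := A) (B := B) (g := g) hP (by rw [hk, hP]) hPa hcop hα0 hβ0
        (fun r j hr hrg hj => hf.val r j hr (hrg.mul_right A) (hrg.mul_right B) (by rw [hPs]; exact hj))
        (by rw [hu2, hv2]) hlt hua (hle j hj) (hmle j u) heq
      exact hf.power r hr (hrg.mul_right A) (hrg.mul_right B) y hy
    intro u v huv
    by_contra hne
    have h0 : u.1.1 ≠ v.1.1 := by
      intro h
      apply hne
      have hu := u.2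
      have hv := v.2
      unfold polyIdx at hu hv
      rw [Finset.mem_filter, hwt] at hu hv
      have h1 : A * u.1.2 = A * v.1.2 := by
        have := hu.2
        have := hv.2
        rw [h] at *
        omega
      exact Subtype.ext (Prod.ext h (Nat.eq_of_mul_eq_mul_left hA0 h1))
    rcases lt_or_gt_of_ne h0 with h | h
    · exact hmain v u h huv.symm
    · exact hmain u v h huv

end Pool.Agent.Helper9.WS
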