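import Pool.Agent.Helper9.WS.Defs

/-!
WS-12: the weights of a polynomial of plane type (project WS).
-/

open MvPolynomial Finset

namespace Pool.Agent.Helper9.WS

/-- the vector with two components -/
private noncomputable def vec56 (x y : ℕ) : Fin 2 →₀ ℕ := Finsupp.single 0 x + Finsupp.single 1 y

private lemma vec0_56 (x y : ℕ) : vec56 x y 0 = x := by
  simp [vec56]

private lemma vec1_56 (x y : ℕ) : vec56 x y 1 = y := by
  simp [vec56]

private lemma vec_ext56 {U V : Fin 2 →₀ ℕ} (h0 : U 0 = V 0) (h1 : U 1 = V 1) : U = V := by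
  ext j
  fin_cases j
  · exact h0
  · exact h1

/-- the weight -/
private def wt56 (a b : ℕ) (U : Fin 2 →₀ ℕ) : ℕ := b * U 0 + a * U 1

private lemma wt_add56 (a b : ℕ) (U V : Fin 2 →₀ ℕ) : wt56 a b (U + V) = wt56 a b U + wt56 a b V := by
  simp only [wt56, Finsupp.add_apply]
  ring

private lemma wt_smul56 (a b m : ℕ) (U : Fin 2 →₀ ℕ) : wt56 a b (m • U) = m * wt56 a b U := by
  simp only [wt56, Finsupp.smul_apply, smul_eq_mul]
  ring

private lemma wt_sum56 (a b : ℕ) (E : Finset (Fin 2 →₀ ℕ)) (m : (Fin 2 →₀ ℕ) → ℕ) :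
    wt56 a b (∑ e ∈ E, m e • e) = ∑ e ∈ E, m e * wt56 a b e := by
  classical
  induction E using Finset.induction_on with
  | empty => simp [wt56]
  | insert x E hx ih => rw [sum_insert hx, sum_insert hx, wt_add56, wt_smul56, ih]

/-- the pairs of positive numbers below the line -/
private def pts56 (a b : ℕ) : Finset (ℕ × ℕ) :=
  (Ico 1 a ×ˢ Ico 1 b).filter fun u => b * u.1 + a * u.2 < a * b

private lemma mem_pts56 {a b : ℕ} (ha : 0 < a) (hb : 0 < b) (u : ℕ × ℕ) :
    u ∈ pts56 a b ↔ 0 < u.1 ∧ 0 < u.2 ∧ b * u.1 + a * u.2 < a * b := by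
  unfold pts56
  rw [mem_filter, mem_product, mem_Ico, mem_Ico]
  constructor
  · rintro ⟨⟨⟨h1, _⟩, ⟨h2, _⟩⟩, h3⟩
    exact ⟨h1, h2, h3⟩
  · rintro ⟨h1, h2, h3⟩
    refine ⟨⟨⟨h1, ?_⟩, ⟨h2, ?_⟩⟩, h3⟩
    · by_contra h
      push Not at h
      nlinarith
    · by_contra h
      push Not at h
      nlinarith

private lemma ne_line56 {a b : ℕ} (hab : a.Coprime b) {x y : ℕ} (hx : 0 < x) (hy : 0 < y) (ha : 0 < a) :
    b * x + a * y ≠ a * b := by
  intro h
  have h1 : a ∣ b * x := by
    have h2 : a ∣ b * x + a * y := ⟨b, h⟩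
    exact (Nat.dvd_add_left (Dvd.intro _ rfl)).mp h2
  have h3 : a ∣ x := hab.dvd_of_dvd_mul_left h1
  have h4 := Nat.le_of_dvd hx h3
  nlinarith [Nat.mul_le_mul_left b h4, Nat.mul_pos ha hy]

theorem plane_simple {p : ℕ} [Fact p.Prime] {k : Type} [Field k] {a b : ℕ}
    {f : MvPolynomial (Fin 2) k} (hf : PlaneType p a b f) :
    ∃ (ω : Weight p f.support (fun _ => True)) (low : Finset (Fin 2 →₀ ℕ)), ω.l = a * b ∧
      Simple ω (fun _ => 0) ((p - 1) * ω.l + 1) low := by
  classical
  obtain ⟨ha, hb, hab, hdvd, hca, hcb, hsupp⟩ := hf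
  have hp2 : 2 ≤ p := (Fact.out : p.Prime).two_le
  have hp1 : 0 < p - 1 := by omega
  have hadvd : a ∣ p - 1 := (Dvd.intro _ rfl).trans hdvd
  have hbdvd : b ∣ p - 1 := (Dvd.intro_left _ rfl).trans hdvd
  have hEa : Finsupp.single 0 a ∈ f.support := mem_support_iff.mpr hca
  have hEb : Finsupp.single 1 b ∈ f.support := mem_support_iff.mpr hcb
  have hne : (Finsupp.single 0 a : Fin 2 →₀ ℕ) ≠ Finsupp.single 1 b := by
    intro h
    have := DFunLike.congr_fun h 0
    simp at this
    omega
  have hwa : wt56 a b (Finsupp.single 0 a) = a * b := by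
    simp [wt56, mul_comm]
  have hwb : wt56 a b (Finsupp.single 1 b) = a * b := by
    simp [wt56]
  have hwE : ∀ e ∈ f.support, wt56 a b e ≤ a * b := by
    intro e he
    rcases hsupp e he with rfl | rfl | h
    · exact hwa.le
    · exact hwb.le
    · exact h.le
  let ω : Weight p f.support (fun _ => True) :=
    { l := a * b
      l_pos := Nat.mul_pos ha hb
      w := wt56 a b
      w_smul := fun U => wt_smul56 a b p U
      w_exp := fun e he U => by
        rw [wt_add56, wt_smul56]
        exact Nat.add_le_add_left (Nat.mul_le_mul_left _ (hwE e he)) _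
      C_zero := trivial
      C_exp := fun _ _ _ _ => trivial
      C_smul := fun _ _ _ _ => trivial }
  have hωl : ω.l = a * b := rfl
  have hωw : ∀ U, ω.w U = wt56 a b U := fun _ => rfl
  let em : ℕ × ℕ → (Fin 2 →₀ ℕ) := fun u => vec56 ((p - 1) * u.1) ((p - 1) * u.2)
  have hem0 : ∀ u, em u 0 = (p - 1) * u.1 := fun u => vec0_56 _ _
  have hem1 : ∀ u, em u 1 = (p - 1) * u.2 := fun u => vec1_56 _ _
  have hwem : ∀ u, wt56 a b (em u) = (p - 1) * (b * u.1 + a * u.2) := by
    intro u
    unfold wt56
    rw [hem0, hem1]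
    ring
  have heminj : Function.Injective em := by
    intro u v h
    have h0 := DFunLike.congr_fun h 0
    have h1 := DFunLike.congr_fun h 1
    rw [hem0, hem0] at h0
    rw [hem1, hem1] at h1
    exact Prod.ext (Nat.eq_of_mul_eq_mul_left hp1 h0) (Nat.eq_of_mul_eq_mul_left hp1 h1)
  -- congruences
  have modeq : ∀ {a' x y : ℕ}, 0 < x → x < a' → 0 < y → y < a' → x ≡ y [MOD a'] → x = y := by
    intro a' x y hx hx' hy hy' h
    have := h
    unfold Nat.ModEq at this
    rwa [Nat.mod_eq_of_lt hx', Nat.mod_eq_of_lt hy'] at this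
  have hlt : ∀ u ∈ pts56 a b, u.1 < a ∧ u.2 < b := by
    intro u hu
    unfold pts56 at hu
    rw [mem_filter, mem_product, mem_Ico, mem_Ico] at hu
    exact ⟨hu.1.1.2, hu.1.2.2⟩
  -- the tight relations
  have key : ∀ u ∈ pts56 a b, ∀ v ∈ pts56 a b, ∀ m, IsTight ω (em u) (em v) m →
      u = v ∧ a * m (Finsupp.single 0 a) = (p - 1) * u.1 ∧
        b * m (Finsupp.single 1 b) = (p - 1) * u.2 ∧
        ∀ e ∈ f.support, e ≠ Finsupp.single 0 a → e ≠ Finsupp.single 1 b → m e = 0 := by
    intro u hu v hv m ⟨h1, h2⟩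
    have hmu := (mem_pts56 ha hb u).mp hu
    have hmv := (mem_pts56 ha hb v).mp hv
    have h3 := congrArg (wt56 a b) h1
    rw [wt_add56, wt_smul56, wt_smul56, wt_sum56] at h3
    rw [hωw, hωw, hωl] at h2
    have h4 : ∑ e ∈ f.support, m e * wt56 a b e = ∑ e ∈ f.support, m e * (a * b) := by
      rw [← sum_mul]
      have h5 : (p - 1) * ∑ e ∈ f.support, m e * wt56 a b e =
          (p - 1) * ((∑ e ∈ f.support, m e) * (a * b)) := by
        have : (p - 1) * ((∑ e ∈ f.support, m e) * (a * b)) = (p - 1) * (a * b) * ∑ e ∈ f.support, m e := by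
          ring
        rw [this]
        omega
      exact Nat.eq_of_mul_eq_mul_left hp1 h5
    have h5 := (sum_eq_sum_iff_of_le (fun e he => Nat.mul_le_mul_left (m e) (hwE e he))).mp h4
    have h6 : ∀ e ∈ f.support, e ≠ Finsupp.single 0 a → e ≠ Finsupp.single 1 b → m e = 0 := by
      intro e he h7 h8
      have h9 : wt56 a b e < a * b := by
        rcases hsupp e he with h | h | h
        · exact absurd h h7
        · exact absurd h h8
        · exact h
      have h10 := h5 e he
      by_contra h11
      exact absurd (Nat.eq_of_mul_eq_mul_left (Nat.pos_of_ne_zero h11) h10) h9.ne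
    have h7 : ∑ e ∈ f.support, m e • e = vec56 (a * m (Finsupp.single 0 a)) (b * m (Finsupp.single 1 b)) := by
      rw [← sum_subset (s₁ := {Finsupp.single 0 a, Finsupp.single 1 b})]
      · rw [sum_pair hne]
        unfold vec56
        rw [Finsupp.smul_single, Finsupp.smul_single, smul_eq_mul, smul_eq_mul, mul_comm a, mul_comm b]
      · intro e he
        rw [mem_insert, mem_singleton] at he
        rcases he with rfl | rfl
        · exact hEa
        · exact hEb
      · intro e he he'
        rw [mem_insert, mem_singleton] at he'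
        push Not at he'
        rw [h6 e he he'.1 he'.2, zero_smul]
    rw [h7] at h1
    have e0 := DFunLike.congr_fun h1 0
    have e1 := DFunLike.congr_fun h1 1
    rw [Finsupp.add_apply, Finsupp.smul_apply, Finsupp.smul_apply, vec0_56, hem0, hem0, smul_eq_mul,
      smul_eq_mul] at e0
    rw [Finsupp.add_apply, Finsupp.smul_apply, Finsupp.smul_apply, vec1_56, hem1, hem1, smul_eq_mul,
      smul_eq_mul] at e1
    have f0 : a * m (Finsupp.single 0 a) + v.1 = p * u.1 := by
      apply Nat.eq_of_mul_eq_mul_left hp1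
      rw [mul_add, e0]
      ring
    have f1 : b * m (Finsupp.single 1 b) + v.2 = p * u.2 := by
      apply Nat.eq_of_mul_eq_mul_left hp1
      rw [mul_add, e1]
      ring
    have hpu : ∀ x, p * x = (p - 1) * x + x := by
      intro x
      obtain ⟨p', rfl⟩ : ∃ p', p = p' + 1 := ⟨p - 1, by omega⟩
      rw [Nat.add_sub_cancel]
      ring
    have g0 : u.1 = v.1 := by
      refine modeq hmu.1 (hlt u hu).1 hmv.1 (hlt v hv).1 ?_
      have h8 : p * u.1 ≡ u.1 [MOD a] := by
        rw [hpu]
        have : (p - 1) * u.1 ≡ 0 [MOD a] := (Nat.modEq_zero_iff_dvd).mpr (hadvd.mul_right _)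
        simpa using this.add_right u.1
      have h9 : a * m (Finsupp.single 0 a) + v.1 ≡ v.1 [MOD a] := by
        have : a * m (Finsupp.single 0 a) ≡ 0 [MOD a] := (Nat.modEq_zero_iff_dvd).mpr (Dvd.intro _ rfl)
        simpa using this.add_right v.1
      rw [f0] at h9
      exact h8.symm.trans h9
    have g1 : u.2 = v.2 := by
      refine modeq hmu.2.1 (hlt u hu).2 hmv.2.1 (hlt v hv).2 ?_
      have h8 : p * u.2 ≡ u.2 [MOD b] := by
        rw [hpu]
        have : (p - 1) * u.2 ≡ 0 [MOD b] := (Nat.modEq_zero_iff_dvd).mpr (hbdvd.mul_right _)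
        simpa using this.add_right u.2
      have h9 : b * m (Finsupp.single 1 b) + v.2 ≡ v.2 [MOD b] := by
        have : b * m (Finsupp.single 1 b) ≡ 0 [MOD b] := (Nat.modEq_zero_iff_dvd).mpr (Dvd.intro _ rfl)
        simpa using this.add_right v.2
      rw [f1] at h9
      exact h8.symm.trans h9
    refine ⟨Prod.ext g0 g1, ?_, ?_, h6⟩
    · rw [← g0, hpu] at f0
      omega
    · rw [← g1, hpu] at f1
      omega
  refine ⟨ω, (pts56 a b).image em, rfl, ?_⟩
  · refine ⟨?_, ?_, ?_, ?_, ?_⟩
    · -- membership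
      intro U
      rw [mem_image]
      constructor
      · rintro ⟨u, hu, rfl⟩
        have h1 := (mem_pts56 ha hb u).mp hu
        refine ⟨?_, trivial, ?_⟩
        · intro j
          fin_cases j
          · change em u 0 ≠ 0 ∧ p - 1 ∣ em u 0 + 0
            rw [hem0, add_zero]
            exact ⟨(Nat.mul_pos hp1 h1.1).ne', Dvd.intro _ rfl⟩
          · change em u 1 ≠ 0 ∧ p - 1 ∣ em u 1 + 0
            rw [hem1, add_zero]
            exact ⟨(Nat.mul_pos hp1 h1.2.1).ne', Dvd.intro _ rfl⟩
        · rw [hωw, hwem, hωl]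
          exact (Nat.mul_lt_mul_of_pos_left h1.2.2 hp1).trans (Nat.lt_succ_self _)
      · rintro ⟨h1, _, h2⟩
        obtain ⟨x, hx⟩ := (h1 0).2
        obtain ⟨y, hy⟩ := (h1 1).2
        rw [add_zero] at hx hy
        have hU : em (x, y) = U := vec_ext56 (by rw [hem0, hx]) (by rw [hem1, hy])
        refine ⟨(x, y), ?_, hU⟩
        rw [mem_pts56 ha hb]
        have hx0 : 0 < x := by
          rcases Nat.eq_zero_or_pos x with h | h
          · exfalso
            apply (h1 0).1
            rw [hx, h, mul_zero]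
          · exact h
        have hy0 : 0 < y := by
          rcases Nat.eq_zero_or_pos y with h | h
          · exfalso
            apply (h1 1).1
            rw [hy, h, mul_zero]
          · exact h
        refine ⟨hx0, hy0, ?_⟩
        rw [hωw, ← hU, hwem, hωl] at h2
        exact lt_of_le_of_ne (Nat.le_of_mul_le_mul_left (Nat.lt_succ_iff.mp h2) hp1)
          (ne_line56 hab hx0 hy0 ha)
    · -- different weights
      intro U hU V hV hUV
      rw [mem_image] at hU hV
      obtain ⟨u, hu, rfl⟩ := hU
      obtain ⟨v, hv, rfl⟩ := hV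
      have hmu := (mem_pts56 ha hb u).mp hu
      have hmv := (mem_pts56 ha hb v).mp hv
      rw [hωw, hωw, hwem, hwem] at hUV
      have h1 := Nat.eq_of_mul_eq_mul_left hp1 hUV
      have h2 : u.1 = v.1 := by
        refine modeq hmu.1 (hlt u hu).1 hmv.1 (hlt v hv).1 ?_
        have h3 : b * u.1 ≡ b * v.1 [MOD a] := by
          have h4 : b * u.1 + a * u.2 ≡ b * v.1 + a * v.2 [MOD a] := by rw [h1]
          have h5 : b * u.1 + a * u.2 ≡ b * u.1 [MOD a] := by
            have : a * u.2 ≡ 0 [MOD a] := (Nat.modEq_zero_iff_dvd).mpr (Dvd.intro _ rfl)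
            simpa using this.add_left (b * u.1)
          have h6 : b * v.1 + a * v.2 ≡ b * v.1 [MOD a] := by
            have : a * v.2 ≡ 0 [MOD a] := (Nat.modEq_zero_iff_dvd).mpr (Dvd.intro _ rfl)
            simpa using this.add_left (b * v.1)
          exact h5.symm.trans (h4.trans h6)
        exact Nat.ModEq.cancel_left_of_coprime (by rwa [← Nat.coprime_iff_gcd_eq_one]) h3
      have h3 : u.2 = v.2 := by
        rw [h2] at h1
        exact Nat.eq_of_mul_eq_mul_left ha (Nat.add_left_cancel h1)
      rw [Prod.ext h2 h3]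
    · -- tight multiplicities
      intro U hU
      rw [mem_image] at hU
      obtain ⟨u, hu, rfl⟩ := hU
      have hmu := (mem_pts56 ha hb u).mp hu
      obtain ⟨c, hc⟩ := hadvd
      obtain ⟨d, hd⟩ := hbdvd
      refine ⟨fun e => if e = Finsupp.single 0 a then c * u.1 else
        if e = Finsupp.single 1 b then d * u.2 else 0, ⟨?_, ?_⟩, ?_⟩
      · have h7 : ∑ e ∈ f.support, (if e = Finsupp.single 0 a then c * u.1 else
            if e = Finsupp.single 1 b then d * u.2 else 0) • e = em u := by
          rw [← sum_subset (s₁ := {Finsupp.single 0 a, Finsupp.single 1 b})]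
          · rw [sum_pair hne, if_pos rfl, if_neg hne.symm, if_pos rfl, Finsupp.smul_single,
              Finsupp.smul_single, smul_eq_mul, smul_eq_mul]
            change _ = Finsupp.single 0 _ + Finsupp.single 1 _
            congr 2
            · rw [hc]; ring
            · rw [hd]; ring
          · intro e he
            rw [mem_insert, mem_singleton] at he
            rcases he with rfl | rfl
            · exact hEa
            · exact hEb
          · intro e he he'
            rw [mem_insert, mem_singleton] at he'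
            push Not at he'
            rw [if_neg he'.1, if_neg he'.2, zero_smul]
        rw [h7]
        obtain ⟨p', hp'⟩ : ∃ p', p = p' + 1 := ⟨p - 1, by omega⟩
        rw [hp', Nat.add_sub_cancel, add_smul, one_smul]
      · have h7 : ∑ e ∈ f.support, (if e = Finsupp.single 0 a then c * u.1 else
            if e = Finsupp.single 1 b then d * u.2 else 0) = c * u.1 + d * u.2 := by
          rw [← sum_subset (s₁ := {Finsupp.single 0 a, Finsupp.single 1 b})]
          · rw [sum_pair hne, if_pos rfl, if_neg hne.symm, if_pos rfl]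
          · intro e he
            rw [mem_insert, mem_singleton] at he
            rcases he with rfl | rfl
            · exact hEa
            · exact hEb
          · intro e he he'
            rw [mem_insert, mem_singleton] at he'
            push Not at he'
            rw [if_neg he'.1, if_neg he'.2]
        rw [h7, hωw, hwem, hωl]
        have h8 : a * b * (c * u.1 + d * u.2) = (p - 1) * (b * u.1 + a * u.2) := by
          calc a * b * (c * u.1 + d * u.2) = (a * c) * (b * u.1) + (b * d) * (a * u.2) := by ring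
            _ = (p - 1) * (b * u.1 + a * u.2) := by rw [← hc, ← hd]; ring
        have h9 : (p - 1) * (a * b) * (c * u.1 + d * u.2) = (p - 1) * ((p - 1) * (b * u.1 + a * u.2)) := by
          rw [mul_assoc, h8]
        rw [h9]
        obtain ⟨p', hp'⟩ : ∃ p', p = p' + 1 := ⟨p - 1, by omega⟩
        rw [hp', Nat.add_sub_cancel]
        ring
      · intro e _
        have h1 : c * u.1 ≤ p - 1 := by
          rw [hc, mul_comm a]
          exact Nat.mul_le_mul_left _ (hlt u hu).1.le
        have h2 : d * u.2 ≤ p - 1 := by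
          rw [hd, mul_comm b]
          exact Nat.mul_le_mul_left _ (hlt u hu).2.le
        simp only
        split_ifs <;> omega
    · -- uniqueness
      intro U hU V hV m m' h1 h2
      rw [mem_image] at hU hV
      obtain ⟨u, hu, rfl⟩ := hU
      obtain ⟨v, hv, rfl⟩ := hV
      obtain ⟨k1, k2, k3, k4⟩ := key u hu v hv m h1
      obtain ⟨_, l2, l3, l4⟩ := key u hu u hu m' h2
      refine ⟨by rw [k1], fun e he => ?_⟩
      by_cases h3 : e = Finsupp.single 0 a
      · rw [h3]
        exact Nat.eq_of_mul_eq_mul_left ha (k2.trans l2.symm)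
      · by_cases h4 : e = Finsupp.single 1 b
        · rw [h4]
          exact Nat.eq_of_mul_eq_mul_left hb (k3.trans l3.symm)
        · rw [k4 e he h3 h4, l4 e he h3 h4]
    · intro U Z hU _
      have hl : 1 ≤ (p - 1) * ω.l := Nat.mul_pos hp1 (Nat.mul_pos ha hb)
      by_cases hZ : 2 ≤ Z.card
      · have h1 : 2 ≤ max 1 Z.card := hZ.trans (le_max_right _ _)
        calc (p - 1) * ω.l + 1 ≤ (p - 1) * ω.l + (p - 1) * ω.l := Nat.add_le_add_left hl _
          _ = 2 * ((p - 1) * ω.l) := (two_mul _).symm
          _ ≤ max 1 Z.card * ((p - 1) * ω.l) := Nat.mul_le_mul_right _ h1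
          _ ≤ _ := Nat.le_add_left _ _
      · have h1 : 1 ≤ max 1 Z.card := le_max_left _ _
        obtain ⟨j, hj⟩ : ∃ j, j ∉ Z := by
          by_contra! hcon
          have h3 : Z = univ := by
            ext j
            simp [hcon j]
          rw [h3] at hZ
          simp at hZ
        have h2 : U j ≠ 0 := fun h => hj ((hU j).1.mpr h)
        have h3 : 1 ≤ ω.w U := by
          rw [hωw]
          unfold wt56
          fin_cases j
          · have h4 : 0 < b * U 0 := Nat.mul_pos hb (Nat.pos_of_ne_zero h2)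
            omega
          · have h4 : 0 < a * U 1 := Nat.mul_pos ha (Nat.pos_of_ne_zero h2)
            omega
        calc (p - 1) * ω.l + 1 = 1 + 1 * ((p - 1) * ω.l) := by ring
          _ ≤ ω.w U + max 1 Z.card * ((p - 1) * ω.l) :=
            Nat.add_le_add h3 (Nat.mul_le_mul_right _ h1)

end Pool.Agent.Helper9.WS
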